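import Pool.Agent.H978R3.Wedge.Final

set_option autoImplicit false

/-!
Critical self-avoiding walk on the honeycomb lattice (the case `n = 0`, `x = x_c(0)` of the O(n)
boundary path) started at the apex of a lattice wedge: the partition function of the paths from the
apex to the far boundary decays polynomially for openings up to 240 degrees, stays between `1` and
`√2` for the opening of 300 degrees, and grows polynomially for the slit plane.
-/

namespace Pool.Agent.Results.MP_4960b8_pr.WedgeTransition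

open H978R2.Hex H978R3.Wedge

theorem finsum_lists {D : V → Prop} [DecidablePred D] (m : ℕ) (Q : V → Prop) [DecidablePred Q]
    (hQ : ∀ l ∈ P D m, Q (l.headD (0, 0)) → l.headD (0, 0) ∉ l.tail) (g : ℤ → ℝ) :
    ∑ᶠ f ∈ {f : Fin (m + 2) → V | f ∈ WalkSet D m ∧ Q (f (Fin.last (m + 1)))}, g (turnSum f) =
      ∑ l ∈ (P D m).filter (fun l => Q (l.headD (0, 0))), g (W l) := by
  rw [← finsum_mem_coe_finset]
  apply finsum_mem_eq_of_bijOn rl
  · refine ⟨?_, ?_, ?_⟩
    · intro f hf
      rw [Finset.mem_coe, Finset.mem_filter]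
      exact ⟨rl_mem hf.1, by rw [rl_head]; exact hf.2⟩
    · intro f _ g _ h
      exact rl_inj h
    · intro l hl
      rw [Finset.mem_coe, Finset.mem_filter] at hl
      obtain ⟨f, h1, h2⟩ := exists_rl hl.1 (hQ l hl.1 hl.2)
      refine ⟨f, ⟨h1, ?_⟩, h2⟩
      have h3 := rl_head f
      rw [h2] at h3
      rw [← h3]
      exact hl.2
  · rintro f _
    rw [W_rl]

theorem weighted_index (D : V → Prop) [DecidablePred D] (Q : V → Prop) [DecidablePred Q]
    (T : Finset ℤ) (g : ℤ → ℝ)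
    (h : ∀ m, ∀ l ∈ P D m, ¬ D (l.headD (0, 0)) → (Q (l.headD (0, 0)) ↔ W l ∈ T)) (n : ℕ) :
    ∑ m ∈ Finset.range (n + 1),
      (∑ l ∈ (P D m).filter (fun l => ¬ D (l.headD (0, 0)) ∧ Q (l.headD (0, 0))), g (W l)) *
        (mu0⁻¹) ^ m = ∑ k ∈ T, g k * Mass D n k := by
  unfold Mass
  simp_rw [Finset.mul_sum]
  rw [Finset.sum_comm]
  refine Finset.sum_congr rfl fun m _ => ?_
  rw [← Finset.sum_fiberwise_of_maps_to
    (s := (P D m).filter (fun l => ¬ D (l.headD (0, 0)) ∧ Q (l.headD (0, 0)))) (t := T) (g := W),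
    Finset.sum_mul]
  · refine Finset.sum_congr rfl fun k hk => ?_
    have e : ((P D m).filter (fun l => ¬ D (l.headD (0, 0)) ∧ Q (l.headD (0, 0)))).filter
        (fun l => W l = k) = Land D m k := by
      unfold Land
      ext l
      simp only [Finset.mem_filter]
      constructor
      · rintro ⟨⟨h1, h2, h3⟩, h4⟩
        exact ⟨h1, h2, h4⟩
      · rintro ⟨h1, h2, h4⟩
        exact ⟨⟨h1, h2, (h m l h1 h2).2 (h4 ▸ hk)⟩, h4⟩
    rw [e]
    have : ∀ l ∈ Land D m k, g (W l) = g k := by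
      intro l hl
      unfold Land at hl
      rw [(Finset.mem_filter.1 hl).2.2]
    rw [Finset.sum_congr rfl this, Finset.sum_const, nsmul_eq_mul]
    ring
  · intro l hl
    rw [Finset.mem_filter] at hl
    exact (h m l hl.1 hl.2.1).1 hl.2.2

/-- the weighted exit measure of the wedge of 300 degrees has total mass exactly one -/
theorem exact_exit (N : ℤ) (hN : 1 ≤ N) :
    ∑' m : ℕ, (∑ᶠ f ∈ Cross (Wd 5) N m, Real.cos ((turnSum f : ℝ) * (Real.pi / 8))) * xc ^ m
      = 1 := by
  obtain ⟨n, hn⟩ := big N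
  have h := w_rot 5 N hN n hn 0
  have hnear : ∑ k ∈ KN 5, Real.cos ((k : ℝ) * (Real.pi / 8) + 0) * Mass (Om (wPar 5 N)) n k
      = 0 := by
    rw [kn5, Finset.sum_pair (by norm_num)]
    have c4 : Real.cos (((4 : ℤ) : ℝ) * (Real.pi / 8) + 0) = 0 := by
      have : ((4 : ℤ) : ℝ) * (Real.pi / 8) + 0 = Real.pi / 2 := by push_cast; ring
      rw [this, Real.cos_pi_div_two]
    have c5 : Real.cos (((-4 : ℤ) : ℝ) * (Real.pi / 8) + 0) = 0 := by
      have : ((-4 : ℤ) : ℝ) * (Real.pi / 8) + 0 = -(Real.pi / 2) := by push_cast; ring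
      rw [this, Real.cos_neg, Real.cos_pi_div_two]
    rw [c4, c5]
    ring
  rw [hnear, add_zero, Real.cos_zero] at h
  rw [← weighted_index (Om (wPar 5 N)) (Wd 5) (KF 5)
    (fun k => Real.cos ((k : ℝ) * (Real.pi / 8) + 0)) (far_index 5 N hN) n] at h
  rw [← h, tsum_eq_sum (s := Finset.range (n + 1))]
  · refine Finset.sum_congr rfl fun m _ => ?_
    rw [xc_eq]
    congr 1
    rw [← finsum_lists m (fun z => ¬ Om (wPar 5 N) z ∧ Wd 5 z) ?_
      (fun k => Real.cos ((k : ℝ) * (Real.pi / 8) + 0))]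
    · have e : Cross (Wd 5) N m = {f : Fin (m + 2) → V | f ∈ WalkSet (Om (wPar 5 N)) m ∧
          (¬ Om (wPar 5 N) (f (Fin.last (m + 1))) ∧ Wd 5 (f (Fin.last (m + 1))))} := by
        unfold Cross
        rw [wd_om 5 N hN]
        ext f
        simp only [Set.mem_ofPred_eq]
        constructor
        · rintro ⟨h1, h2, h3⟩
          exact ⟨h1, fun h => h3 ((om_iff 5 N hN _).1 h).2, h2⟩
        · rintro ⟨h1, h2, h3⟩
          exact ⟨h1, h3, fun h => h2 ((om_iff 5 N hN _).2 ⟨h3, h⟩)⟩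
      rw [e]
      simp only [add_zero]
    · intro l hl hQ ht
      obtain ⟨z, t, rfl, hg, hlen⟩ := good_of_mem hl
      simp only [List.headD_cons, List.tail_cons] at hQ ht
      have h1 := hg.last
      rcases List.eq_nil_or_concat t with h | ⟨s, a, h⟩
      · rw [h] at hlen; simp at hlen
      · subst h
        rw [List.concat_eq_append] at ht h1
        have ha : a = (0, 0) := by simpa using h1
        rcases List.mem_append.1 ht with h2 | h2
        · have h3 := hg.om z (by simpa using h2)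
          exact hQ.1 h3
        · rw [List.mem_singleton] at h2
          rw [h2, ha] at hQ
          have := hQ.2.1 rfl
          simp at this
  · intro m hm
    rw [Finset.mem_range, not_lt] at hm
    have : Cross (Wd 5) N m = ∅ := by
      unfold Cross
      rw [ws_empty 5 N hN n m hn (by omega)]
      simp
    rw [this]
    simp

/-- **Theorem** (transition of the opening angle). `Wd 4`, `Wd 5`, `Wd 6` are the lattice wedges of
opening 240, 300, 360 degrees, `Zc E N` the critical partition function of the walks from the apex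
which stay in `E` and are stopped when they leave the hexagon `Hx N`, `Zn E N` the one of the walks
stopped when they hit the sides of the wedge. -/
theorem result :
    -- 300 degrees
    (∀ N : ℤ, 1 ≤ N →
      1 ≤ Zc (Wd 5) N ∧ Zc (Wd 5) N ≤ Real.sqrt 2 ∧
      ∑' m : ℕ, (∑ᶠ f ∈ Cross (Wd 5) N m, Real.cos ((turnSum f : ℝ) * (Real.pi / 8))) * xc ^ m
        = 1 ∧
      (Real.log N - 4) / 100 ≤ Zn (Wd 5) N) ∧
    (∀ n : ℕ,
      ∑ᶠ f ∈ {f : Fin (n + 2) → ℤ × ℤ | f ∈ WalkSet (Wd 5) n ∧ Wd 5 (f (Fin.last (n + 1)))},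
        Real.cos ((turnSum f : ℝ) * (Real.pi / 8)) = (Real.sqrt (2 + Real.sqrt 2)) ^ n) ∧
    -- 240 degrees and less
    (∀ N : ℤ, 1 ≤ N →
      (∀ E : ℤ × ℤ → Prop, (∀ v, E v → Wd 4 v) →
        Zc E N ≤ 3 / 2 * (N : ℝ) ^ (-(1 : ℝ) / 250)) ∧
      Zn (Wd 4) N ≤ 6) ∧
    -- 360 degrees
    (∀ N : ℤ, 1 ≤ N → 9 / 10 * (N : ℝ) ^ ((1 : ℝ) / 500) ≤ Zc (Wd 6) N) := by
  refine ⟨fun N hN => ⟨(Z300 N hN).1, (Z300 N hN).2, exact_exit N hN, S300 N hN⟩, ?_, ?_, Z360⟩
  · intro n
    exact exact_walks n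
  · intro N hN
    exact ⟨fun E hE => (Zc_mono 4 hE N hN).trans (Z240 N hN), S240 N hN⟩

end Pool.Agent.Results.MP_4960b8_pr.WedgeTransition
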